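import Pool.Agent.N299.DT.Stm

/-!
Project DT (MP_fb67b4_an), task ZB: a full square zero element from orthogonal pairs.
-/

set_option autoImplicit false

noncomputable section

namespace Pool.Agent.N483.DT.ZB

open Pool.Agent.N299 Pool.Agent.N299.DT

section words

variable {E : Type} [CStarAlgebra E] {K : ℕ} (T : ℕ → Bool ⊕ (Fin 3 × Fin K) → E)

/-- `p_j` if `j = k + 1`, else `q_j` -/
def fac (k : Fin K) (j : ℕ) : E :=
  if j = (k : ℕ) + 1 then T j (.inl false) else T j (.inl true)

/-- ordered product of the factors with indices `1, …, n` -/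
def wd (k : Fin K) : ℕ → E
  | 0 => 1
  | n + 1 => wd k n * fac T k (n + 1)

/-- `q_0 y_k p_0` -/
def zz (k : Fin K) : E := T 0 (.inl true) * T 0 (.inr (1, k)) * T 0 (.inl false)

variable {T}

lemma fac_comm (hT : CS T) (k : Fin K) {i j : ℕ} (hij : i ≠ j)
    (g : Bool ⊕ (Fin 3 × Fin K)) : T i g * fac T k j = fac T k j * T i g := by
  unfold fac
  split_ifs
  · exact (hT i j hij g _).1
  · exact (hT i j hij g _).1

lemma wd_comm (hT : CS T) (k : Fin K) (i : ℕ) (g : Bool ⊕ (Fin 3 × Fin K)) :
    ∀ n : ℕ, (i = 0 ∨ n < i) → T i g * wd T k n = wd T k n * T i g := by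
  intro n
  induction n with
  | zero => intro _; simp [wd]
  | succ n ih =>
    intro h
    have h1 : i ≠ n + 1 := by omega
    have h2 : i = 0 ∨ n < i := by omega
    simp only [wd]
    rw [← mul_assoc, ih h2, mul_assoc, fac_comm hT k h1, ← mul_assoc]

lemma fac_wd (hT : CS T) (k k' : Fin K) (n i : ℕ) (h : n < i) :
    fac T k i * wd T k' n = wd T k' n * fac T k i := by
  unfold fac
  split_ifs
  · exact wd_comm hT k' i _ n (Or.inr h)
  · exact wd_comm hT k' i _ n (Or.inr h)

lemma fac_sa (hP : ∀ j, PQT K (T j)) (k : Fin K) (j : ℕ) : star (fac T k j) = fac T k j := by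
  unfold fac
  split_ifs
  · exact (hP j).psa
  · exact (hP j).qsa

lemma wd_sa (hT : CS T) (hP : ∀ j, PQT K (T j)) (k : Fin K) (n : ℕ) :
    star (wd T k n) = wd T k n := by
  induction n with
  | zero => simp [wd]
  | succ n ih =>
    simp only [wd]
    rw [star_mul, ih, fac_sa hP, fac_wd hT k k n (n + 1) (Nat.lt_succ_self n)]

lemma qp (hP : ∀ j, PQT K (T j)) (j : ℕ) : T j (.inl true) * T j (.inl false) = 0 := by
  have h := congrArg star (hP j).orth
  rw [star_mul, (hP j).psa, (hP j).qsa, star_zero] at h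
  exact h

lemma wd_orth (hT : CS T) (hP : ∀ j, PQT K (T j)) (k k' : Fin K) (hk : k ≠ k') (n : ℕ)
    (hn : (k : ℕ) + 1 ≤ n) : wd T k n * wd T k' n = 0 := by
  induction n with
  | zero => omega
  | succ n ih =>
    have e : wd T k (n + 1) * wd T k' (n + 1) =
        (wd T k n * wd T k' n) * (fac T k (n + 1) * fac T k' (n + 1)) := by
      simp only [wd]
      rw [mul_assoc, ← mul_assoc (fac T k (n + 1)), fac_wd hT k k' n (n + 1) (Nat.lt_succ_self n)]
      simp only [mul_assoc]
    rw [e]
    by_cases h : (k : ℕ) = n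
    · have h' : (k' : ℕ) ≠ n := fun h2 => hk (Fin.ext (h.trans h2.symm))
      have : fac T k (n + 1) * fac T k' (n + 1) = 0 := by
        unfold fac
        rw [if_pos (by omega), if_neg (by omega)]
        exact (hP (n + 1)).orth
      rw [this, mul_zero]
    · rw [ih (by omega), zero_mul]

end words

theorem t_ZB (hSQ : S_SQ) (hPRM : S_PRM) (hAL : S_AL) : S_ZB := by
  intro K E _ hE T hT hP hgen
  set z : E := ∑ k, zz T k * wd T k K with hz
  have hzz : z * z = 0 := by
    rw [hz, Finset.sum_mul_sum]
    refine Finset.sum_eq_zero fun k _ => Finset.sum_eq_zero fun k' _ => ?_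
    have h1 : T 0 (.inl false) * wd T k K = wd T k K * T 0 (.inl false) :=
      wd_comm hT k 0 _ K (Or.inl rfl)
    calc zz T k * wd T k K * (zz T k' * wd T k' K)
        = T 0 (.inl true) * T 0 (.inr (1, k)) * (T 0 (.inl false) * wd T k K) *
          (T 0 (.inl true) * T 0 (.inr (1, k')) * T 0 (.inl false) * wd T k' K) := by
          simp only [zz, mul_assoc]
      _ = T 0 (.inl true) * T 0 (.inr (1, k)) * (wd T k K * (T 0 (.inl false) * T 0 (.inl true))) *
          (T 0 (.inr (1, k')) * T 0 (.inl false) * wd T k' K) := by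
          rw [h1]; simp only [mul_assoc]
      _ = 0 := by rw [(hP 0).orth]; simp
  have hcert : Cert (fun _ : Unit => z) := by
    by_contra hno
    obtain ⟨S, iS, π, hS, hsur, hπ⟩ := hSQ E Unit (fun _ => z) hno
    have hπz : π z = 0 := hπ ()
    obtain ⟨-, hmono, hmem, -, hcs, hmap⟩ := hAL E _ T
    obtain ⟨hmap1, hmap2⟩ := hmap S π Set.univ
    set T' : ℕ → Bool ⊕ (Fin 3 × Fin K) → S := fun j g => π (T j g) with hT'
    have hgen' : Al T' Set.univ = ⊤ := hmap2 hsur hgen
    have hCS' : CS T' := by
      intro j k hjk g h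
      refine ⟨?_, ?_⟩
      · rw [hT']; simp only
        rw [← map_mul, (hT j k hjk g h).1, map_mul]
      · rw [hT']; simp only
        rw [← map_star, ← map_mul, (hT j k hjk g h).2, map_mul]
    have hpair : ∀ J, Pair (Al T' J) (Al T' Jᶜ) := by
      obtain ⟨-, -, -, -, hcs', -⟩ := hAL S _ T'
      exact (hcs' hCS').2 hgen'
    have hP1 : ∀ j, ∑ i, T' j (.inr (0, i)) * T' j (.inl true) * T' j (.inr (1, i)) *
        T' j (.inl false) * T' j (.inr (2, i)) = 1 := by
      intro j
      have h := congrArg π (hP j).full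
      rw [map_sum, map_one] at h
      simpa only [map_mul] using h
    have hne : ∀ j b, T' j (.inl b) ≠ 0 := by
      intro j b h0
      apply hS.1
      rw [← hP1 j]
      refine Finset.sum_eq_zero fun i _ => ?_
      cases b
      · rw [h0]; simp
      · rw [h0]; simp
    have hfac : ∀ k j, π (fac T k j) ≠ 0 := by
      intro k j
      unfold fac
      split_ifs
      · exact hne j false
      · exact hne j true
    have hfacm : ∀ k j (J : Set ℕ), j ∈ J → π (fac T k j) ∈ Al T' J := by
      intro k j J hj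
      obtain ⟨-, -, hmem', -, -, -⟩ := hAL S _ T'
      unfold fac
      split_ifs
      · exact hmem' J j _ hj
      · exact hmem' J j _ hj
    have hmono' : ∀ J J' : Set ℕ, J ⊆ J' → Al T' J ≤ Al T' J' := (hAL S _ T').2.1
    have hwdm : ∀ k n, π (wd T k n) ∈ Al T' {j | 1 ≤ j ∧ j ≤ n} := by
      intro k n
      induction n with
      | zero => simp only [wd, map_one]; exact one_mem _
      | succ n ih =>
        simp only [wd, map_mul]
        refine mul_mem (hmono' _ _ ?_ ih) (hfacm k (n + 1) _ ⟨by omega, le_refl _⟩)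
        rintro j ⟨h1, h2⟩
        exact ⟨h1, by omega⟩
    have hwd : ∀ k n, π (wd T k n) ≠ 0 := by
      intro k n
      induction n with
      | zero => simp only [wd, map_one]; exact hS.1
      | succ n ih =>
        intro h0
        simp only [wd, map_mul] at h0
        rcases hPRM S hS _ _ (hpair {j | 1 ≤ j ∧ j ≤ n}) _ (hwdm k n) _
          (hfacm k (n + 1) _ (by simp)) h0 with h | h
        · exact ih h
        · exact hfac k (n + 1) h
    have hzk : ∀ k, π (zz T k) = 0 := by
      intro k
      have e1 : z * wd T k K = zz T k * (wd T k K * wd T k K) := by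
        rw [hz, Finset.sum_mul, Finset.sum_eq_single k]
        · rw [mul_assoc]
        · intro k' _ hk'
          rw [mul_assoc, wd_orth hT hP k' k hk' K (by omega), mul_zero]
        · intro h; exact absurd (Finset.mem_univ k) h
      have e2 : π (zz T k) * π (wd T k K * wd T k K) = 0 := by
        rw [← map_mul, ← e1, map_mul, hπz, zero_mul]
      have m1 : π (zz T k) ∈ Al T' {0} := by
        obtain ⟨-, -, hmem', -, -, -⟩ := hAL S _ T'
        simp only [zz, map_mul]
        exact mul_mem (mul_mem (hmem' {0} 0 _ rfl) (hmem' {0} 0 _ rfl)) (hmem' {0} 0 _ rfl)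
      have m2 : π (wd T k K * wd T k K) ∈ Al T' {0}ᶜ := by
        rw [map_mul]
        have : π (wd T k K) ∈ Al T' {0}ᶜ := hmono' _ _ (by
          rintro j ⟨h1, h2⟩
          simp only [Set.mem_compl_iff, Set.mem_singleton_iff]
          omega) (hwdm k K)
        exact mul_mem this this
      rcases hPRM S hS _ _ (hpair {0}) _ m1 _ m2 e2 with h | h
      · exact h
      · exfalso
        have h3 : star (π (wd T k K)) * π (wd T k K) = 0 := by
          rw [← map_star, wd_sa hT hP, ← map_mul, h]
        exact hwd k K (CStarRing.star_mul_self_eq_zero_iff _ |>.1 h3)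
    apply hS.1
    have h := congrArg π (hP 0).full
    rw [map_sum, map_one] at h
    rw [← h]
    refine Finset.sum_eq_zero fun k _ => ?_
    have : T 0 (.inr (0, k)) * T 0 (.inl true) * T 0 (.inr (1, k)) * T 0 (.inl false) *
        T 0 (.inr (2, k)) = T 0 (.inr (0, k)) * zz T k * T 0 (.inr (2, k)) := by
      simp only [zz, mul_assoc]
    rw [this, map_mul, map_mul, hzk k, mul_zero, zero_mul]
  obtain ⟨n, t, a, b, hab⟩ := hcert
  refine ⟨n, Sum.elim (fun _ => z) (fun p => if p.1 then b p.2 else a p.2), ?_, ?_⟩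
  · exact hzz
  · simpa using hab

end Pool.Agent.N483.DT.ZB
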